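import Mathlib

set_option autoImplicit false

namespace Pool.Agent.Results.MP_d721eb_al.Counter

abbrev Mat (n : ℕ) := Fin n → Fin n → ℝ

def mul {n : ℕ} (A B : Mat n) : Mat n := fun i j => ∑ k, A i k * B k j

/-- `pw A m` is the power `A ^ (m + 1)` -/
def pw {n : ℕ} (A : Mat n) : ℕ → Mat n
  | 0 => A
  | m + 1 => mul (pw A m) A

def IsEig {n : ℕ} (M : Mat n) (μ : ℂ) : Prop :=
  ∃ x : Fin n → ℂ, x ≠ 0 ∧ ∀ i, ∑ j, (M i j : ℂ) * x j = μ * x i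

/-- `r` is the largest modulus of a complex eigenvalue of `M` -/
def IsRad {n : ℕ} (M : Mat n) (r : ℝ) : Prop := IsGreatest {s | ∃ μ, IsEig M μ ∧ s = ‖μ‖} r

def Stoch {n : ℕ} (W : Mat n) : Prop := (∀ i j, 0 ≤ W i j) ∧ ∀ i, ∑ j, W i j = 1

def Prim {n : ℕ} (W : Mat n) : Prop := ∃ m, ∀ i j, 0 < pw W m i j

def Perron {n : ℕ} (W : Mat n) (p : Fin n → ℝ) : Prop :=
  (∀ i, 0 < p i) ∧ (∀ j, ∑ i, p i * W i j = p j) ∧ ∑ i, p i = 1

def PSD {n : ℕ} (B : Mat n) : Prop :=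
  (∀ i j, B i j = B j i) ∧ ∀ x : Fin n → ℝ, 0 ≤ ∑ i, ∑ j, x i * B i j * x j

/-- the matrix `W (I - t B)` -/
def P {n : ℕ} (W B : Mat n) (t : ℝ) : Mat n :=
  mul W fun i j => (if i = j then 1 else 0) - t * B i j

noncomputable def W0 : Mat 3 := ![![1 / 2, 1 / 2, 0], ![0, 0, 1], ![1, 0, 0]]
def B0 : Mat 3 := ![![4, -2, 0], ![-2, 1, 0], ![0, 0, 0]]

theorem result : ∃ (n : ℕ) (W B : Mat n) (p : Fin n → ℝ) (r t : ℝ), 1 ≤ n ∧
    Stoch W ∧ Prim W ∧ Perron W p ∧ PSD B ∧ IsRad B r ∧ (∀ i, ∑ j, B i j ≤ r) ∧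
    0 < ∑ i, p i * ∑ j, B i j ∧ 0 < t ∧ t < 2 / r ∧ ∃ μ, IsEig (P W B t) μ ∧ 1 ≤ ‖μ‖ := by
  refine ⟨3, W0, B0, ![1 / 2, 1 / 4, 1 / 4], 5, 4 / 11, by norm_num, ⟨fun i j => ?_, fun i => ?_⟩,
    ⟨3, fun i j => ?_⟩, ⟨fun i => ?_, fun i => ?_, ?_⟩, ⟨fun i j => ?_, fun x => ?_⟩,
    ⟨⟨5, ⟨![2, -1, 0], fun h => ?_, fun i => ?_⟩, by simp⟩, ?_⟩, fun i => ?_, ?_, by norm_num,
    by norm_num, -1, ⟨![-3, 5, -5], fun h => ?_, fun i => ?_⟩, by simp⟩
  · fin_cases i <;> fin_cases j <;> simp [W0]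
  · fin_cases i <;> simp [W0, Fin.sum_univ_three]
    norm_num
  · fin_cases i <;> fin_cases j <;> simp [W0, pw, mul, Fin.sum_univ_three] <;> norm_num
  · fin_cases i <;> simp
  · fin_cases i <;> simp [W0, Fin.sum_univ_three] <;> norm_num
  · simp [Fin.sum_univ_three]
    norm_num
  · fin_cases i <;> fin_cases j <;> simp [B0]
  · simp [B0, Fin.sum_univ_three]
    nlinarith [sq_nonneg (2 * x 0 - x 1)]
  · simpa using congrFun h 0
  · fin_cases i <;> simp [B0, Fin.sum_univ_three] <;> norm_num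
  · rintro s ⟨μ, ⟨x, hx, h⟩, rfl⟩
    have h0 := h 0
    have h1 := h 1
    have h2 := h 2
    simp [B0, Fin.sum_univ_three] at h0 h1 h2
    by_cases hm : μ = 0
    · simp [hm]
    · have e0 : x 0 = -2 * x 1 := mul_left_cancel₀ hm (by linear_combination -h0 - 2 * h1)
      have e1 : x 1 ≠ 0 := fun e => hx (by
        funext i
        fin_cases i
        · simp [e0, e]
        · simp [e]
        · simpa [hm] using h2)
      have e2 : μ = 5 := mul_right_cancel₀ e1 (by linear_combination -h1 - 2 * e0)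
      simp [e2]
  · fin_cases i <;> simp [B0, Fin.sum_univ_three] <;> norm_num
  · simp [B0, Fin.sum_univ_three]
    norm_num
  · simpa using congrFun h 0
  · fin_cases i <;> simp [P, mul, W0, B0, Fin.sum_univ_three] <;> norm_num

end Pool.Agent.Results.MP_d721eb_al.Counter
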